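import Pool.Agent.Helper23.Favard.L1

/-!
# Favard's inequality for even periodic Lipschitz functions
-/

open Finset Real MeasureTheory intervalIntegral Polynomial

namespace Pool.Agent.Helper23.Favard

noncomputable section

/-- The cosine coefficients. -/
def Ak (f : ℝ → ℝ) (k : ℕ) : ℝ := ∫ u in (-π)..π, f u * cos (k * u)

lemma conv_cos (f : ℝ → ℝ) (hc : Continuous f) (heven : ∀ x, f (-x) = f x)
    (hper : Function.Periodic f (2 * π)) (k : ℕ) (x : ℝ) :
    ∫ t in (0 : ℝ)..π, (f (x - t) + f (x + t)) * cos (k * t) = cos (k * x) * Ak f k := by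
  have h1 : ∫ t in (0 : ℝ)..π, (f (x - t) + f (x + t)) * cos (k * t) =
      (∫ t in (0 : ℝ)..π, f (x - t) * cos (k * t)) + ∫ t in (0 : ℝ)..π, f (x + t) * cos (k * t) := by
    rw [← intervalIntegral.integral_add]
    · apply intervalIntegral.integral_congr
      intro t _
      simp only
      ring
    · apply Continuous.intervalIntegrable; fun_prop
    · apply Continuous.intervalIntegrable; fun_prop
  have h2 : ∫ t in (0 : ℝ)..π, f (x - t) * cos (k * t) =
      ∫ t in (-π)..0, f (x + t) * cos (k * t) := by
    have := intervalIntegral.integral_comp_neg (a := 0) (b := π) (fun t => f (x + t) * cos (k * t))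
    rw [neg_zero] at this
    rw [← this]
    apply intervalIntegral.integral_congr
    intro t _
    simp only
    rw [mul_neg, cos_neg, sub_eq_add_neg]
  have h3 : (∫ t in (-π)..0, f (x + t) * cos (k * t)) + ∫ t in (0 : ℝ)..π, f (x + t) * cos (k * t) =
      ∫ t in (-π)..π, f (x + t) * cos (k * t) := by
    apply intervalIntegral.integral_add_adjacent_intervals
    · apply Continuous.intervalIntegrable; fun_prop
    · apply Continuous.intervalIntegrable; fun_prop
  rw [h1, h2, h3]
  -- shift
  set F : ℝ → ℝ := fun u => f u * cos (k * (u - x)) with hF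
  have h4 : ∫ t in (-π)..π, f (x + t) * cos (k * t) = ∫ u in (x + -π)..(x + π), F u := by
    rw [← intervalIntegral.integral_comp_add_left]
    apply intervalIntegral.integral_congr
    intro t _
    simp only [hF]
    congr 2
    ring
  have hFper : Function.Periodic F (2 * π) := by
    intro u
    simp only [hF]
    rw [hper u]
    have : (k : ℝ) * (u + 2 * π - x) = k * (u - x) + k * (2 * π) := by ring
    rw [this, cos_add_nat_mul_two_pi]
  have h5 : ∫ u in (x + -π)..(x + π), F u = ∫ u in (-π)..π, F u := by
    have := hFper.intervalIntegral_add_eq (x + -π) (-π)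
    have e1 : x + -π + 2 * π = x + π := by ring
    have e2 : -π + 2 * π = π := by ring
    rw [e1, e2] at this
    exact this
  rw [h4, h5]
  have h6 : ∫ u in (-π)..π, f u * sin (k * u) = 0 := by
    have := intervalIntegral.integral_comp_neg (a := -π) (b := π) (fun u => f u * sin (k * u))
    rw [neg_neg] at this
    have h7 : ∫ u in (-π)..π, f (-u) * sin (k * -u) = -∫ u in (-π)..π, f u * sin (k * u) := by
      rw [← intervalIntegral.integral_neg]
      apply intervalIntegral.integral_congr
      intro u _
      simp only
      rw [heven, mul_neg, sin_neg]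
      ring
    rw [h7] at this
    linarith
  have h8 : ∫ u in (-π)..π, F u = (∫ u in (-π)..π, cos (k * x) * (f u * cos (k * u))) +
      ∫ u in (-π)..π, sin (k * x) * (f u * sin (k * u)) := by
    rw [← intervalIntegral.integral_add]
    · apply intervalIntegral.integral_congr
      intro u _
      simp only [hF]
      rw [mul_sub, cos_sub]
      ring
    · apply Continuous.intervalIntegrable; fun_prop
    · apply Continuous.intervalIntegrable; fun_prop
  rw [h8, intervalIntegral.integral_const_mul, intervalIntegral.integral_const_mul, h6]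
  unfold Ak
  ring

/-- Favard's inequality: an even `2π`-periodic `M`-Lipschitz function is approximated within
`M π / (2 (n + 1))` by a polynomial of degree at most `n` in `cos x`. -/
theorem favard (f : ℝ → ℝ) (M : NNReal) (hf : LipschitzWith M f) (heven : ∀ x, f (-x) = f x)
    (hper : Function.Periodic f (2 * π)) (n : ℕ) :
    ∃ P : ℝ[X], P.natDegree ≤ n ∧
      (∃ a : ℕ → ℝ, ∀ x, P.eval (cos x) = ∑ k ∈ range (n + 1), a k * cos (k * x)) ∧
      ∀ x, |f x - P.eval (cos x)| ≤ M * π / (2 * (n + 1)) := by
  have hc := hf.continuous
  have hT : ∀ (x : ℝ) (i : ℕ),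
      (Chebyshev.T ℝ ((i + 1 : ℕ) : ℤ)).eval (cos x) = cos ((i + 1 : ℕ) * x) := by
    intro x i
    rw [Chebyshev.T_real_cos]
    push_cast
    rfl
  refine ⟨C (Ak f 0 / (2 * π)) + ∑ i ∈ range n,
    C (bf n i * ((i + 1 : ℕ) : ℝ) * Ak f (i + 1) / π) * Chebyshev.T ℝ ((i + 1 : ℕ) : ℤ), ?_, ?_, ?_⟩
  · apply (natDegree_add_le _ _).trans
    rw [natDegree_C]
    apply max_le (Nat.zero_le _)
    apply natDegree_sum_le_of_forall_le
    intro i hi
    rw [mem_range] at hi
    apply (natDegree_C_mul_le _ _).trans
    rw [Chebyshev.natDegree_T]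
    simp only [Int.natAbs_natCast]
    omega
  · refine ⟨fun k => if k = 0 then Ak f 0 / (2 * π) else
      bf n (k - 1) * (k : ℝ) * Ak f k / π, fun x => ?_⟩
    rw [eval_add, eval_C, eval_finsetSum, sum_range_succ' (n := n), add_comm]
    simp only [eval_mul, eval_C, hT, if_true, Nat.cast_zero, zero_mul, cos_zero, mul_one,
      Nat.succ_ne_zero, if_false, Nat.add_sub_cancel, Nat.add_eq_zero_iff, one_ne_zero, and_false]
  · intro x
    have hg : LipschitzWith (2 * M) (fun t => f (x - t) + f (x + t)) := by
      have h1 : LipschitzWith M (fun t => f (x - t)) := by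
        have : LipschitzWith 1 (fun t : ℝ => x - t) := by
          apply LipschitzWith.of_dist_le_mul
          intro a b
          rw [NNReal.coe_one, one_mul, Real.dist_eq, Real.dist_eq]
          rw [show x - a - (x - b) = -(a - b) by ring, abs_neg]
        have h := hf.comp this
        rw [mul_one] at h
        exact h
      have h2 : LipschitzWith M (fun t => f (x + t)) := by
        have : LipschitzWith 1 (fun t : ℝ => x + t) := by
          apply LipschitzWith.of_dist_le_mul
          intro a b
          rw [NNReal.coe_one, one_mul, Real.dist_eq, Real.dist_eq]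
          rw [show x + a - (x + b) = a - b by ring]
        have h := hf.comp this
        rw [mul_one] at h
        exact h
      have h3 := h1.add h2
      rwa [← two_mul] at h3
    have hb := functional_bound n _ _ hg
    simp only [sub_zero, add_zero] at hb
    have hval : (1 / π) * ∫ t in (0 : ℝ)..π, (f (x - t) + f (x + t)) * (1 / 2 + tau' n t) =
        (C (Ak f 0 / (2 * π)) + ∑ i ∈ range n,
          C (bf n i * ((i + 1 : ℕ) : ℝ) * Ak f (i + 1) / π) *
            Chebyshev.T ℝ ((i + 1 : ℕ) : ℤ)).eval (cos x) := by
      rw [eval_add, eval_C, eval_finsetSum]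
      simp only [eval_mul, eval_C, hT]
      have hint : ∫ t in (0 : ℝ)..π, (f (x - t) + f (x + t)) * (1 / 2 + tau' n t) =
          (1 / 2) * (∫ t in (0 : ℝ)..π, (f (x - t) + f (x + t)) * cos ((0 : ℕ) * t)) +
          ∑ i ∈ range n, bf n i * ((i + 1 : ℕ) : ℝ) *
            ∫ t in (0 : ℝ)..π, (f (x - t) + f (x + t)) * cos ((i + 1 : ℕ) * t) := by
        rw [← intervalIntegral.integral_const_mul]
        have : ∀ i ∈ range n, bf n i * ((i + 1 : ℕ) : ℝ) *
            ∫ t in (0 : ℝ)..π, (f (x - t) + f (x + t)) * cos ((i + 1 : ℕ) * t) =
            ∫ t in (0 : ℝ)..π, bf n i * ((i + 1 : ℕ) : ℝ) *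
              ((f (x - t) + f (x + t)) * cos ((i + 1 : ℕ) * t)) := fun i _ =>
          (intervalIntegral.integral_const_mul _ _).symm
        rw [sum_congr rfl this, ← intervalIntegral.integral_finsetSum,
          ← intervalIntegral.integral_add]
        · apply intervalIntegral.integral_congr
          intro t _
          simp only [Nat.cast_zero, zero_mul, cos_zero, tau']
          rw [mul_add, mul_sum]
          congr 1
          · ring
          · exact sum_congr rfl fun i _ => by ring
        · apply Continuous.intervalIntegrable; fun_prop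
        · apply Continuous.intervalIntegrable; fun_prop
        · intro i _
          apply Continuous.intervalIntegrable; fun_prop
      rw [hint, conv_cos f hc heven hper 0 x]
      simp only [conv_cos f hc heven hper]
      rw [Nat.cast_zero, zero_mul, cos_zero, one_mul, mul_add, mul_sum]
      congr 1
      · field_simp
      · exact sum_congr rfl fun i _ => by ring
    rw [hval] at hb
    have e : (f x + f x) / 2 = f x := by ring
    rw [e] at hb
    refine hb.trans (le_of_eq ?_)
    rw [NNReal.coe_mul]
    push_cast
    field_simp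
    ring

end

end Pool.Agent.Helper23.Favard
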