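import Mathlib

/-!
# Polynomial curve approximation of curves of bounded length: definitions
-/

open Filter
open scoped ENNReal

namespace Pool.Agent.Helper23.Favard

noncomputable section

/-- `Γ₁`: the images of continuous maps `φ : [0,1] → ℝ²` of Euclidean length at most `1`,
as subsets of `ℝ × ℝ` (whose metric is the max norm). -/
def Gamma1 : Set (Set (ℝ × ℝ)) :=
  {K | ∃ φ : ℝ → EuclideanSpace ℝ (Fin 2), ContinuousOn φ (Set.Icc 0 1) ∧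
    eVariationOn φ (Set.Icc 0 1) ≤ 1 ∧ K = (fun t => (φ t 0, φ t 1)) '' Set.Icc 0 1}

/-- `H_n²`: algebraic polynomial curves of degree at most `n`. -/
def HCurves (n : ℕ) : Set (Set (ℝ × ℝ)) :=
  {K | ∃ P Q : Polynomial ℝ, P.natDegree ≤ n ∧ Q.natDegree ≤ n ∧
    K = (fun t => (P.eval t, Q.eval t)) '' Set.Icc (0 : ℝ) 1}

/-- Trigonometric polynomials of degree at most `n`. -/
def IsTrig (n : ℕ) (T : ℝ → ℝ) : Prop :=
  ∃ a b : ℕ → ℝ, ∀ t, T t = ∑ k ∈ Finset.range (n + 1),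
    (a k * Real.cos (k * t) + b k * Real.sin (k * t))

/-- `T_n²`: trigonometric polynomial curves of degree at most `n`. -/
def TCurves (n : ℕ) : Set (Set (ℝ × ℝ)) :=
  {K | ∃ T S : ℝ → ℝ, IsTrig n T ∧ IsTrig n S ∧
    K = (fun t => (T t, S t)) '' Set.Icc 0 (2 * Real.pi)}

/-- `E(W; Γ) = sup_{γ' ∈ Γ} inf_{γ ∈ W} r(γ', γ)`, with `r` the Hausdorff distance for the max
norm (as an element of `[0, ∞]`). -/
def E (W Γ : Set (Set (ℝ × ℝ))) : ℝ≥0∞ :=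
  ⨆ γ' ∈ Γ, ⨅ γ ∈ W, Metric.hausdorffEDist γ' γ

/-- `c₃ = limsup n E(H_n²; Γ₁)`. -/
def c3 : ℝ≥0∞ := limsup (fun n : ℕ => (n : ℝ≥0∞) * E (HCurves n) Gamma1) atTop

/-- `c₄ = limsup n E(T_n²; Γ₁)`. -/
def c4 : ℝ≥0∞ := limsup (fun n : ℕ => (n : ℝ≥0∞) * E (TCurves n) Gamma1) atTop

end

end Pool.Agent.Helper23.Favard
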