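import Pool.Agent.Helper23.Favard.Approx
import Pool.Agent.Helper23.Favard.Defs

/-!
# Arclength parametrisation and the upper bound for curve approximation
-/

open Finset Real MeasureTheory Filter Topology
open scoped ENNReal

namespace Pool.Agent.Helper23.Favard

noncomputable section

/-- The Euclidean plane. -/
abbrev E2 : Type := EuclideanSpace ℝ (Fin 2)

lemma exists_lipschitz (φ : ℝ → E2) (hc : ContinuousOn φ (Set.Icc 0 1))
    (hv : eVariationOn φ (Set.Icc 0 1) ≤ 1) :
    ∃ ψ : ℝ → E2, LipschitzWith 1 ψ ∧ ψ '' Set.Icc 0 1 = φ '' Set.Icc 0 1 := by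
  set s : Set ℝ := Set.Icc 0 1 with hs
  have h0s : (0 : ℝ) ∈ s := ⟨le_rfl, zero_le_one⟩
  have h1s : (1 : ℝ) ∈ s := ⟨zero_le_one, le_rfl⟩
  have hbv : BoundedVariationOn φ s := ne_top_of_le_ne_top ENNReal.one_ne_top hv
  have hlbv : LocallyBoundedVariationOn φ s := hbv.locallyBoundedVariationOn
  set v : ℝ → ℝ := variationOnFromTo φ s 0 with hvdef
  have hmono : MonotoneOn v s := variationOnFromTo.monotoneOn hlbv h0s
  have hv0 : v 0 = 0 := variationOnFromTo.self _ _ _
  have hv1 : v 1 ≤ 1 := by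
    rw [hvdef, variationOnFromTo.eq_of_le _ _ zero_le_one]
    have h1 : eVariationOn φ (s ∩ Set.Icc 0 1) ≤ 1 := by
      rw [hs, Set.inter_self]; exact hv
    exact ENNReal.toReal_le_of_le_ofReal zero_le_one (by simpa using h1)
  have hcont : ContinuousOn v s := by
    intro x hx
    have hl := hbv.tendsto_eVariationOn_Icc_zero_left (x := x)
      ((hc x hx).mono Set.inter_subset_left)
    have hr := hbv.tendsto_eVariationOn_Icc_zero_right x
      ((hc x hx).mono Set.inter_subset_left)
    have hl' : Tendsto (fun y => (eVariationOn φ (s ∩ Set.Icc y x)).toReal) (𝓝[s] x) (𝓝 0) := by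
      have := (ENNReal.tendsto_toReal ENNReal.zero_ne_top).comp hl
      simpa [Function.comp_def] using this
    have hr' : Tendsto (fun y => (eVariationOn φ (s ∩ Set.Icc x y)).toReal) (𝓝[s] x) (𝓝 0) := by
      have := (ENNReal.tendsto_toReal ENNReal.zero_ne_top).comp hr
      simpa [Function.comp_def] using this
    have hsum := hl'.add hr'
    rw [add_zero] at hsum
    unfold ContinuousWithinAt
    rw [tendsto_iff_dist_tendsto_zero]
    apply squeeze_zero' (g := fun y => (eVariationOn φ (s ∩ Set.Icc y x)).toReal +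
      (eVariationOn φ (s ∩ Set.Icc x y)).toReal) _ _ hsum
    · exact Eventually.of_forall fun _ => dist_nonneg
    · filter_upwards [self_mem_nhdsWithin] with y hy
      have hadd := variationOnFromTo.add hlbv h0s hx hy
      have hd : v y - v x = variationOnFromTo φ s x y := by
        rw [hvdef]; linarith
      rw [Real.dist_eq, hd]
      rcases le_total x y with h | h
      · rw [variationOnFromTo.eq_of_le _ _ h, abs_of_nonneg ENNReal.toReal_nonneg]
        linarith [ENNReal.toReal_nonneg (a := eVariationOn φ (s ∩ Set.Icc y x))]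
      · rw [variationOnFromTo.eq_of_ge _ _ h, abs_neg, abs_of_nonneg ENNReal.toReal_nonneg]
        linarith [ENNReal.toReal_nonneg (a := eVariationOn φ (s ∩ Set.Icc x y))]
  have himg : Set.Icc 0 (v 1) ⊆ v '' s := by
    have := intermediate_value_Icc (zero_le_one (α := ℝ)) hcont
    rwa [hv0] at this
  have hvnn : 0 ≤ v 1 := by rw [← hv0]; exact hmono h0s h1s zero_le_one
  set ψ0 := naturalParameterization φ s 0 with hψ0
  have hspeed := has_unit_speed_naturalParameterization φ hlbv h0s
  have hdist : ∀ a ∈ Set.Icc 0 (v 1), ∀ b ∈ Set.Icc 0 (v 1), a ≤ b →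
      edist (ψ0 a) (ψ0 b) ≤ ENNReal.ofReal (b - a) := by
    intro a ha b hb hab
    have h1 := hspeed (himg ha) (himg hb)
    simp only [NNReal.coe_one, one_mul] at h1
    rw [← h1]
    exact eVariationOn.edist_le _ ⟨himg ha, le_rfl, hab⟩ ⟨himg hb, hab, le_rfl⟩
  have hdist' : ∀ a ∈ Set.Icc 0 (v 1), ∀ b ∈ Set.Icc 0 (v 1),
      dist (ψ0 a) (ψ0 b) ≤ |a - b| := by
    intro a ha b hb
    rcases le_total a b with h | h
    · have := hdist a ha b hb h
      rw [edist_dist] at this
      have h2 := (ENNReal.ofReal_le_ofReal_iff (by linarith)).mp this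
      rw [abs_sub_comm, abs_of_nonneg (by linarith)]
      exact h2
    · have := hdist b hb a ha h
      rw [edist_comm, edist_dist] at this
      have h2 := (ENNReal.ofReal_le_ofReal_iff (by linarith)).mp this
      rw [abs_of_nonneg (by linarith)]
      exact h2
  have hclamp : ∀ u, max 0 (min u (v 1)) ∈ Set.Icc 0 (v 1) := fun u =>
    ⟨le_max_left _ _, max_le hvnn (min_le_right _ _)⟩
  have hval : ∀ b ∈ s, ψ0 (v b) = φ b := by
    intro b hb
    have := edist_naturalParameterization_eq_zero hlbv h0s hb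
    exact edist_eq_zero.mp this
  refine ⟨fun u => ψ0 (max 0 (min u (v 1))), ?_, ?_⟩
  · apply LipschitzWith.of_dist_le_mul
    intro a b
    rw [NNReal.coe_one, one_mul]
    refine (hdist' _ (hclamp a) _ (hclamp b)).trans ?_
    rw [Real.dist_eq]
    have h1 : |max 0 (min a (v 1)) - max 0 (min b (v 1))| ≤ |min a (v 1) - min b (v 1)| := by
      rw [max_comm 0, max_comm 0]
      exact abs_max_sub_max_le_abs _ _ _
    have h2 : |min a (v 1) - min b (v 1)| ≤ |a - b| := by
      refine (abs_min_sub_min_le_max a (v 1) b (v 1)).trans ?_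
      simp
    exact h1.trans h2
  · ext z
    constructor
    · rintro ⟨u, _, rfl⟩
      obtain ⟨b, hb, hbu⟩ := himg (hclamp u)
      refine ⟨b, hb, ?_⟩
      simp only
      rw [← hbu, hval b hb]
    · rintro ⟨b, hb, rfl⟩
      have hvb0 : 0 ≤ v b := by rw [← hv0]; exact hmono h0s hb hb.1
      have hvb1 : v b ≤ v 1 := hmono hb h1s hb.2
      refine ⟨v b, ⟨hvb0, hvb1.trans hv1⟩, ?_⟩
      simp only
      rw [min_eq_left hvb1, max_eq_right hvb0, hval b hb]

/-- The distance of `θ` to `2πℤ`. -/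
def wv (θ : ℝ) : ℝ := ‖(θ : AddCircle (2 * π))‖

lemma wv_lipschitz : LipschitzWith 1 wv := by
  apply LipschitzWith.of_dist_le_mul
  intro a b
  rw [NNReal.coe_one, one_mul, Real.dist_eq, Real.dist_eq]
  unfold wv
  refine (abs_norm_sub_norm_le _ _).trans ?_
  rw [← AddCircle.coe_sub]
  exact QuotientAddGroup.norm_mk_le_norm

lemma wv_even (θ : ℝ) : wv (-θ) = wv θ := by
  unfold wv
  rw [AddCircle.coe_neg, norm_neg]

lemma wv_periodic : Function.Periodic wv (2 * π) := by
  intro θ
  unfold wv
  rw [AddCircle.coe_add_period]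

lemma wv_eq {θ : ℝ} (h0 : 0 ≤ θ) (h1 : θ ≤ π) : wv θ = θ := by
  unfold wv
  have hp : (2 * π) ≠ 0 := by positivity
  have := (AddCircle.norm_coe_eq_abs_iff (2 * π) (x := θ) hp).mpr (by
    rw [abs_of_nonneg h0, abs_of_pos (by positivity)]
    linarith)
  rw [this, abs_of_nonneg h0]

lemma wv_le (θ : ℝ) : wv θ ≤ π := by
  unfold wv
  have := AddCircle.norm_le_half_period (2 * π) (x := (θ : AddCircle (2 * π))) (by positivity)
  rw [abs_of_pos (by positivity)] at this
  linarith

/-- A 1-Lipschitz curve on `[0,1]` is uniformly approximated, in the parameter `θ`. -/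
lemma approx_curve (ψ : ℝ → E2) (hψ : LipschitzWith 1 ψ) (n : ℕ) (c : Fin 2) :
    ∃ P : Polynomial ℝ, P.natDegree ≤ n ∧
      (∃ a : ℕ → ℝ, ∀ x, P.eval (cos x) = ∑ k ∈ range (n + 1), a k * cos (k * x)) ∧
      ∀ θ, |ψ (wv θ / π) c - P.eval (cos θ)| ≤ 1 / (2 * (n + 1)) := by
  have hpi := pi_pos
  have hlip : LipschitzWith (Real.toNNReal (1 / π)) (fun θ => ψ (wv θ / π) c) := by
    apply LipschitzWith.of_dist_le_mul
    intro a b
    rw [Real.coe_toNNReal _ (by positivity)]
    have h1 : dist (ψ (wv a / π) c) (ψ (wv b / π) c) ≤ dist (ψ (wv a / π)) (ψ (wv b / π)) := by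
      rw [Real.dist_eq, dist_eq_norm]
      have := PiLp.norm_apply_le (ψ (wv a / π) - ψ (wv b / π)) c
      simpa using this
    have h2 := hψ.dist_le_mul (wv a / π) (wv b / π)
    have h3 := wv_lipschitz.dist_le_mul a b
    rw [NNReal.coe_one, one_mul] at h2 h3
    have h4 : dist (wv a / π) (wv b / π) = 1 / π * dist (wv a) (wv b) := by
      rw [Real.dist_eq, Real.dist_eq, ← sub_div, abs_div, abs_of_pos hpi]
      ring
    rw [h4] at h2
    calc _ ≤ 1 / π * dist (wv a) (wv b) := h1.trans h2
      _ ≤ 1 / π * dist a b := mul_le_mul_of_nonneg_left h3 (by positivity)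
  obtain ⟨P, hP, hPa, hPb⟩ := favard _ _ hlip (fun x => by simp only [wv_even])
    (fun x => by simp only [wv_periodic x]) n
  refine ⟨P, hP, hPa, fun θ => (hPb θ).trans (le_of_eq ?_)⟩
  rw [Real.coe_toNNReal _ (by positivity)]
  field_simp

end

end Pool.Agent.Helper23.Favard
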