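import Mathlib

/-!
# The Favard kernel: best one-sided information on `(π - t)/2`
-/

open Finset Real MeasureTheory intervalIntegral

namespace Pool.Agent.Helper23.Favard

noncomputable section

/-- Even geometric sums. -/
def G (m : ℕ) (r : ℝ) : ℝ := ∑ i ∈ range m, r ^ (2 * i)

lemma G_zero (r : ℝ) : G 0 r = 0 := by simp [G]
lemma G_one (r : ℝ) : G 1 r = 1 := by simp [G]

lemma G_succ' (m : ℕ) (r : ℝ) : G (m + 1) r = 1 + r ^ 2 * G m r := by
  unfold G
  rw [sum_range_succ', mul_sum, add_comm]
  simp only [mul_zero, pow_zero]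
  congr 1
  exact sum_congr rfl fun i _ => by ring

lemma G_pos (m : ℕ) (r : ℝ) : 0 < G (m + 1) r := by
  rw [G_succ']
  have : 0 ≤ G m r := sum_nonneg fun i _ => by rw [pow_mul]; positivity
  positivity

lemma G_nonneg (m : ℕ) (r : ℝ) : 0 ≤ G m r := sum_nonneg fun i _ => by rw [pow_mul]; positivity

lemma G_rec (m : ℕ) (r : ℝ) : (1 + r ^ 2) * G (m + 1) r = G (m + 2) r + r ^ 2 * G m r := by
  rw [G_succ' (m + 1), G_succ' m]
  ring

lemma G_continuous (m : ℕ) : Continuous (G m) := by
  unfold G
  fun_prop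

/-- The coefficients of the interpolating sine polynomial. -/
def cf (n i : ℕ) (r : ℝ) : ℝ := r ^ i * G (n - i) r / G (n + 1) r

lemma cf_continuous (n i : ℕ) : Continuous (cf n i) := by
  unfold cf
  apply Continuous.div
  · exact (continuous_pow i).mul (G_continuous _)
  · exact G_continuous _
  · exact fun r => (G_pos n r).ne'

lemma partial_identity (n : ℕ) (r t : ℝ) (K : ℕ) (hK : K ≤ n) :
    (1 - 2 * r * cos t + r ^ 2) * ∑ i ∈ range K, cf n i r * sin ((i + 1 : ℕ) * t) =
      sin t + r * cf n K r * sin ((K : ℕ) * t) -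
        r ^ K * G (n + 1 - K) r / G (n + 1) r * sin ((K + 1 : ℕ) * t) := by
  have hG := (G_pos n r).ne'
  induction K with
  | zero =>
    simp [hG]
  | succ K ih =>
    rw [sum_range_succ, mul_add, ih (by omega)]
    obtain ⟨m, rfl⟩ : ∃ m, n = K + 1 + m := ⟨n - (K + 1), by omega⟩
    have e1 : K + 1 + m - K = m + 1 := by omega
    have e2 : K + 1 + m + 1 - K = m + 2 := by omega
    have e3 : K + 1 + m - (K + 1) = m := by omega
    have e4 : K + 1 + m + 1 - (K + 1) = m + 1 := by omega
    have hrec := G_rec m r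
    have s1 : 2 * cos t * sin ((K + 1 : ℕ) * t) = sin ((K + 1 + 1 : ℕ) * t) + sin ((K : ℕ) * t) := by
      have h1 : ((K + 1 + 1 : ℕ) : ℝ) * t = ((K + 1 : ℕ) : ℝ) * t + t := by push_cast; ring
      have h2 : ((K : ℕ) : ℝ) * t = ((K + 1 : ℕ) : ℝ) * t - t := by push_cast; ring
      rw [h1, h2, sin_add, sin_sub]
      ring
    unfold cf
    rw [e1, e2, e3, e4]
    set g := G (K + 1 + m + 1) r
    have key : (1 - 2 * r * cos t + r ^ 2) * (r ^ K * G (m + 1) r / g * sin ((K + 1 : ℕ) * t)) =
        r ^ K * G (m + 1) r / g * ((1 + r ^ 2) * sin ((K + 1 : ℕ) * t)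
          - r * (2 * cos t * sin ((K + 1 : ℕ) * t))) := by ring
    rw [key, s1]
    have hg2 : G (m + 2) r = (1 + r ^ 2) * G (m + 1) r - r ^ 2 * G m r := by linarith
    rw [hg2]
    field_simp
    ring

lemma full_identity (n : ℕ) (r t : ℝ) :
    (1 - 2 * r * cos t + r ^ 2) * ∑ i ∈ range n, cf n i r * sin ((i + 1 : ℕ) * t) =
      sin t - r ^ n / G (n + 1) r * sin ((n + 1 : ℕ) * t) := by
  rw [partial_identity n r t n le_rfl]
  have h1 : cf n n r = 0 := by unfold cf; rw [Nat.sub_self, G_zero]; simp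
  have h2 : n + 1 - n = 1 := by omega
  rw [h1, h2, G_one]
  ring

lemma denom_pos {t : ℝ} (ht : t ∈ Set.Ioo 0 π) (r : ℝ) : 0 < 1 - 2 * r * cos t + r ^ 2 := by
  have hs : 0 < sin t := sin_pos_of_pos_of_lt_pi ht.1 ht.2
  have h := sin_sq_add_cos_sq t
  nlinarith [sq_nonneg (r - cos t), mul_pos hs hs]

/-- The Favard kernel coefficients. -/
def bf (n i : ℕ) : ℝ := ∫ r in (0 : ℝ)..1, cf n i r

/-- The sine polynomial of degree `n` interpolating `(π - t)/2`. -/
def tau (n : ℕ) (t : ℝ) : ℝ := ∑ i ∈ range n, bf n i * sin ((i + 1 : ℕ) * t)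

lemma integral_B {t : ℝ} (ht : t ∈ Set.Ioo 0 π) :
    ∫ r in (0 : ℝ)..1, sin t / (1 - 2 * r * cos t + r ^ 2) = (π - t) / 2 := by
  have hs : 0 < sin t := sin_pos_of_pos_of_lt_pi ht.1 ht.2
  have hsc := sin_sq_add_cos_sq t
  have hd : ∀ r ∈ Set.uIcc (0 : ℝ) 1, HasDerivAt (fun r => arctan ((r - cos t) / sin t))
      (sin t / (1 - 2 * r * cos t + r ^ 2)) r := by
    intro r _
    have h1 : HasDerivAt (fun r => (r - cos t) / sin t) (1 / sin t) r :=
      ((hasDerivAt_id r).sub_const _).div_const _
    have h2 := h1.arctan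
    convert h2 using 1
    have hp := denom_pos ht r
    have h3 : 1 + ((r - cos t) / sin t) ^ 2 = (1 - 2 * r * cos t + r ^ 2) / sin t ^ 2 := by
      rw [div_pow, eq_div_iff (by positivity), add_mul, div_mul_cancel₀ _ (by positivity)]
      nlinarith
    rw [h3]
    field_simp
  rw [integral_eq_sub_of_hasDerivAt hd]
  · have e1 : (1 - cos t) / sin t = tan (t / 2) := by
      have h1 : sin t = 2 * sin (t / 2) * cos (t / 2) := by
        rw [← sin_two_mul]; congr 1; ring
      have h2 : cos t = 2 * cos (t / 2) ^ 2 - 1 := by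
        rw [← cos_two_mul]; congr 1; ring
      have hc : 0 < cos (t / 2) := cos_pos_of_mem_Ioo ⟨by linarith [ht.1, ht.2, pi_pos], by linarith [ht.2]⟩
      have hs2 : 0 < sin (t / 2) := sin_pos_of_pos_of_lt_pi (by linarith [ht.1]) (by linarith [ht.2, pi_pos])
      have h3 := sin_sq_add_cos_sq (t / 2)
      rw [tan_eq_sin_div_cos, h1, h2, div_eq_div_iff (by positivity) (by positivity)]
      nlinarith
    have e2 : (0 - cos t) / sin t = -tan (π / 2 - t) := by
      rw [tan_eq_sin_div_cos, sin_pi_div_two_sub, cos_pi_div_two_sub]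
      ring
    rw [e1, e2, arctan_neg, arctan_tan (by linarith [ht.1, pi_pos]) (by linarith [ht.2]),
      arctan_tan (by linarith [ht.2]) (by linarith [ht.1])]
    ring
  · apply Continuous.intervalIntegrable
    apply Continuous.div
    · fun_prop
    · fun_prop
    · exact fun r => (denom_pos ht r).ne'

/-- The error of interpolation has the sign of `sin ((n+1) t)`. -/
lemma error_sign (n : ℕ) {t : ℝ} (ht : t ∈ Set.Ioo 0 π) :
    ∃ J : ℝ, 0 ≤ J ∧ (π - t) / 2 - tau n t = sin ((n + 1 : ℕ) * t) * J := by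
  refine ⟨∫ r in (0 : ℝ)..1, r ^ n / G (n + 1) r / (1 - 2 * r * cos t + r ^ 2), ?_, ?_⟩
  · apply intervalIntegral.integral_nonneg (by norm_num)
    intro r hr
    have := G_pos n r
    have := denom_pos ht r
    have := hr.1
    positivity
  · rw [← integral_B ht, ← intervalIntegral.integral_const_mul]
    have h1 : tau n t = ∫ r in (0 : ℝ)..1, ∑ i ∈ range n, cf n i r * sin ((i + 1 : ℕ) * t) := by
      rw [intervalIntegral.integral_finsetSum]
      · unfold tau bf
        exact sum_congr rfl fun i _ => (intervalIntegral.integral_mul_const _ _).symm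
      · intro i _
        exact ((cf_continuous n i).mul continuous_const).intervalIntegrable _ _
    rw [h1, ← intervalIntegral.integral_sub]
    · apply intervalIntegral.integral_congr
      intro r _
      have hp := denom_pos ht r
      have hfull := full_identity n r t
      have hG := G_pos n r
      simp only
      have : ∑ i ∈ range n, cf n i r * sin ((i + 1 : ℕ) * t) =
          (sin t - r ^ n / G (n + 1) r * sin ((n + 1 : ℕ) * t)) / (1 - 2 * r * cos t + r ^ 2) := by
        rw [eq_div_iff hp.ne', ← hfull]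
        ring
      rw [this]
      field_simp
      ring
    · apply Continuous.intervalIntegrable
      apply Continuous.div
      · fun_prop
      · fun_prop
      · exact fun r => (denom_pos ht r).ne'
    · apply Continuous.intervalIntegrable
      apply continuous_finsetSum
      intro i _
      exact (cf_continuous n i).mul continuous_const

end

end Pool.Agent.Helper23.Favard
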