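import Pool.Agent.Helper23.Favard.Kernel

/-!
# The `L¹` norm of the Favard kernel error and the sharp approximation functional
-/

open Finset Real MeasureTheory intervalIntegral

namespace Pool.Agent.Helper23.Favard

noncomputable section

/-- The error kernel. -/
def D (n : ℕ) (t : ℝ) : ℝ := (π - t) / 2 - tau n t

lemma tau_continuous (n : ℕ) : Continuous (tau n) := by
  unfold tau
  fun_prop

lemma D_continuous (n : ℕ) : Continuous (D n) := by
  unfold D
  have := tau_continuous n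
  fun_prop

/-- The derivative of `tau`. -/
def tau' (n : ℕ) (t : ℝ) : ℝ := ∑ i ∈ range n, bf n i * (((i + 1 : ℕ) : ℝ) * cos ((i + 1 : ℕ) * t))

lemma hasDerivAt_tau (n : ℕ) (t : ℝ) : HasDerivAt (tau n) (tau' n t) t := by
  unfold tau tau'
  have h : ∀ i ∈ range n, HasDerivAt (fun t => bf n i * sin ((i + 1 : ℕ) * t))
      (bf n i * (((i + 1 : ℕ) : ℝ) * cos ((i + 1 : ℕ) * t))) t := by
    intro i _
    have h1 : HasDerivAt (fun t : ℝ => ((i + 1 : ℕ) : ℝ) * t) ((i + 1 : ℕ) : ℝ) t := by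
      simpa using (hasDerivAt_id t).const_mul ((i + 1 : ℕ) : ℝ)
    exact ((h1.sin).const_mul (bf n i)).congr_deriv (by ring)
  have := HasDerivAt.fun_sum h
  exact this

lemma tau'_continuous (n : ℕ) : Continuous (tau' n) := by
  unfold tau'
  fun_prop

lemma hasDerivAt_D (n : ℕ) (t : ℝ) : HasDerivAt (D n) (-(1 / 2) - tau' n t) t := by
  have h1 : HasDerivAt (fun t : ℝ => (π - t) / 2) (-(1 / 2)) t := by
    exact (((hasDerivAt_id t).const_sub π).div_const 2).congr_deriv (by ring)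
  exact h1.sub (hasDerivAt_tau n t)

/-- A primitive of `D`. -/
def Ph (n : ℕ) (t : ℝ) : ℝ :=
  (π * t / 2 - t ^ 2 / 4) + ∑ i ∈ range n, bf n i * (cos ((i + 1 : ℕ) * t) / ((i + 1 : ℕ) : ℝ))

lemma hasDerivAt_Ph (n : ℕ) (t : ℝ) : HasDerivAt (Ph n) (D n t) t := by
  have h1 : HasDerivAt (fun t : ℝ => π * t / 2 - t ^ 2 / 4) ((π - t) / 2) t := by
    have a := ((hasDerivAt_id t).const_mul π).div_const 2
    have b := (hasDerivAt_pow 2 t).div_const 4
    exact (a.sub b).congr_deriv (by ring)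
  have h2 : HasDerivAt (fun t => ∑ i ∈ range n, bf n i * (cos ((i + 1 : ℕ) * t) / ((i + 1 : ℕ) : ℝ)))
      (∑ i ∈ range n, -(bf n i * sin ((i + 1 : ℕ) * t))) t := by
    apply HasDerivAt.fun_sum
    intro i _
    have h1 : HasDerivAt (fun t : ℝ => ((i + 1 : ℕ) : ℝ) * t) ((i + 1 : ℕ) : ℝ) t := by
      simpa using (hasDerivAt_id t).const_mul ((i + 1 : ℕ) : ℝ)
    have : ((i + 1 : ℕ) : ℝ) ≠ 0 := by positivity
    exact (((h1.cos).div_const ((i + 1 : ℕ) : ℝ)).const_mul (bf n i)).congr_deriv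
      (by field_simp)
  have h3 := h1.add h2
  have e : (π - t) / 2 + ∑ i ∈ range n, -(bf n i * sin ((i + 1 : ℕ) * t)) = D n t := by
    unfold D tau
    rw [sum_neg_distrib]
    ring
  rw [e] at h3
  exact h3

/-- Alternating sums of cosine increments vanish. -/
lemma alt_cos (N k : ℕ) (hk : 0 < k) (hkN : k < N) :
    ∑ j ∈ range N, (-1 : ℝ) ^ j * (cos (k * ((j + 1 : ℕ) * (π / N))) - cos (k * (j * (π / N)))) = 0 := by
  set φ : ℝ := k * (π / N) with hφ
  have hN : (0 : ℝ) < N := by exact_mod_cast (by omega : 0 < N)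
  have hk' : (0 : ℝ) < k := by exact_mod_cast hk
  have hkN' : (k : ℝ) < N := by exact_mod_cast hkN
  have hφ0 : 0 < φ := by positivity
  have hφ1 : φ < π := by
    rw [hφ, mul_div_assoc', div_lt_iff₀ hN]
    nlinarith [pi_pos]
  have hcos : 0 < cos (φ / 2) := cos_pos_of_mem_Ioo ⟨by linarith [pi_pos], by linarith⟩
  have tele : ∀ M : ℕ, 2 * cos (φ / 2) *
      ∑ j ∈ range M, (-1 : ℝ) ^ j * (cos (k * ((j + 1 : ℕ) * (π / N))) - cos (k * (j * (π / N)))) =
      2 * sin (φ / 2) * ((-1) ^ M * sin (M * φ)) := by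
    intro M
    induction M with
    | zero => simp
    | succ M ih =>
      rw [sum_range_succ, mul_add, ih]
      have a1 : (k : ℝ) * ((M + 1 : ℕ) * (π / N)) = (M : ℝ) * φ + φ := by rw [hφ]; push_cast; ring
      have a2 : (k : ℝ) * (M * (π / N)) = (M : ℝ) * φ := by rw [hφ]; ring
      have a3 : ((M + 1 : ℕ) : ℝ) * φ = (M : ℝ) * φ + φ := by push_cast; ring
      rw [a1, a2, a3, pow_succ]
      have b1 : φ = φ / 2 + φ / 2 := by ring
      have c1 : cos ((M : ℝ) * φ + φ) = cos ((M : ℝ) * φ) * cos φ - sin ((M : ℝ) * φ) * sin φ :=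
        cos_add _ _
      have c2 : sin ((M : ℝ) * φ + φ) = sin ((M : ℝ) * φ) * cos φ + cos ((M : ℝ) * φ) * sin φ :=
        sin_add _ _
      have c3 : cos φ = 1 - 2 * sin (φ / 2) ^ 2 := by
        have := cos_two_mul (φ / 2)
        rw [show 2 * (φ / 2) = φ by ring] at this
        have h := sin_sq_add_cos_sq (φ / 2)
        linarith
      have c4 : sin φ = 2 * sin (φ / 2) * cos (φ / 2) := by
        have := sin_two_mul (φ / 2)
        rw [show 2 * (φ / 2) = φ by ring] at this
        exact this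
      have h := sin_sq_add_cos_sq (φ / 2)
      rw [c1, c2, c3, c4]
      set x := sin ((M : ℝ) * φ)
      set y := cos ((M : ℝ) * φ)
      set s := sin (φ / 2)
      set c := cos (φ / 2)
      set e := (-1 : ℝ) ^ M
      have hc2 : c ^ 2 = 1 - s ^ 2 := by linarith
      have : 2 * c * (e * (y * (1 - 2 * s ^ 2) - x * (2 * s * c) - y)) =
        2 * s * e * (-2 * (c * s * y)) - 4 * s * e * x * c ^ 2 := by ring
      rw [this, hc2]
      ring
  have hfin := tele N
  have hz : sin ((N : ℝ) * φ) = 0 := by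
    have : (N : ℝ) * φ = (k : ℕ) * π := by rw [hφ]; field_simp
    rw [this]
    exact sin_nat_mul_pi k
  rw [hz, mul_zero, mul_zero] at hfin
  rcases mul_eq_zero.mp hfin with h | h
  · exact absurd h (by positivity)
  · exact h

lemma alt_odd (N : ℕ) : ∑ j ∈ range N, (-1 : ℝ) ^ j * (2 * N - 2 * j - 1) = N := by
  have gen : ∀ (M : ℕ) (x : ℝ), ∑ j ∈ range M, (-1 : ℝ) ^ j * (x - 2 * j - 1) =
      (if Even M then (M : ℝ) else x - M) := by
    intro M x
    induction M with
    | zero => simp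
    | succ M ih =>
      rw [sum_range_succ, ih]
      by_cases h : Even M
      · have h' : ¬ Even (M + 1) := by rwa [Nat.even_add_one, not_not]
        rw [if_pos h, if_neg h', h.neg_one_pow]
        push_cast
        ring
      · have h' : Even (M + 1) := by rwa [Nat.even_add_one]
        rw [if_neg h, if_pos h', (Nat.not_even_iff_odd.mp h).neg_one_pow]
        push_cast
        ring
  rw [gen N (2 * N)]
  split_ifs <;> ring

lemma sin_sign {N : ℕ} (j : ℕ) (hN : 0 < N) {t : ℝ}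
    (ht : t ∈ Set.Icc (j * (π / N)) ((j + 1 : ℕ) * (π / N))) :
    0 ≤ (-1 : ℝ) ^ j * sin (N * t) := by
  have hN' : (0 : ℝ) < N := by exact_mod_cast hN
  have e : (N : ℝ) * t = (N * t - j * π) + j * π := by ring
  have h1 : 0 ≤ N * t - j * π := by
    have := mul_le_mul_of_nonneg_left ht.1 hN'.le
    have h2 : (N : ℝ) * (j * (π / N)) = j * π := by field_simp
    linarith
  have h2 : N * t - j * π ≤ π := by
    have := mul_le_mul_of_nonneg_left ht.2 hN'.le
    have h2 : (N : ℝ) * ((j + 1 : ℕ) * (π / N)) = (j + 1 : ℕ) * π := by field_simp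
    rw [h2] at this
    push_cast at this
    linarith
  rw [e, sin_add_nat_mul_pi, ← mul_assoc, ← mul_pow]
  norm_num
  exact sin_nonneg_of_nonneg_of_le_pi h1 h2

lemma abs_D {n : ℕ} (j : ℕ) {t : ℝ}
    (ht : t ∈ Set.Icc (j * (π / (n + 1 : ℕ))) ((j + 1 : ℕ) * (π / (n + 1 : ℕ))))
    (ht' : t ∈ Set.Ioo 0 π) : |D n t| = (-1 : ℝ) ^ j * D n t := by
  obtain ⟨J, hJ, hD⟩ := error_sign n ht'
  have hs := sin_sign (N := n + 1) j (Nat.succ_pos n) ht
  have hD' : D n t = sin ((n + 1 : ℕ) * t) * J := hD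
  have h0 : 0 ≤ (-1 : ℝ) ^ j * D n t := by
    rw [hD', ← mul_assoc]
    exact mul_nonneg hs hJ
  have : |(-1 : ℝ) ^ j * D n t| = |D n t| := by
    rw [abs_mul, abs_pow, abs_neg, abs_one, one_pow, one_mul]
  rw [← this, abs_of_nonneg h0]

/-- The sharp `L¹` norm. -/
lemma integral_abs_D (n : ℕ) : ∫ t in (0 : ℝ)..π, |D n t| = π ^ 2 / (4 * (n + 1)) := by
  set N := n + 1 with hNdef
  have hN : (0 : ℝ) < (N : ℝ) := by exact_mod_cast Nat.succ_pos n
  set a : ℕ → ℝ := fun j => j * (π / N) with ha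
  have ha0 : a 0 = 0 := by simp [ha]
  have haN : a N = π := by simp only [ha]; field_simp
  have hmono : ∀ j, a j ≤ a (j + 1) := by
    intro j
    simp only [ha]
    have : (0 : ℝ) ≤ π / N := by positivity
    push_cast
    nlinarith
  have hsum := intervalIntegral.sum_integral_adjacent_intervals (f := fun t => |D n t|)
    (μ := volume) (a := a) (n := N) (fun k _ => ((D_continuous n).abs).intervalIntegrable _ _)
  rw [ha0, haN] at hsum
  rw [← hsum]
  have hpiece : ∀ j ∈ range N, ∫ t in (a j)..(a (j + 1)), |D n t| =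
      (-1 : ℝ) ^ j * (Ph n (a (j + 1)) - Ph n (a j)) := by
    intro j hj
    rw [mem_range] at hj
    have h1 : ∫ t in (a j)..(a (j + 1)), |D n t| = ∫ t in (a j)..(a (j + 1)), (-1 : ℝ) ^ j * D n t := by
      apply intervalIntegral.integral_congr_Ioo_of_le (hmono j)
      intro t ht
      apply abs_D j ⟨ht.1.le, ht.2.le⟩
      constructor
      · have : (0 : ℝ) ≤ a j := by simp only [ha]; positivity
        linarith [ht.1]
      · have h2 : a (j + 1) ≤ π := by
          rw [← haN]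
          simp only [ha]
          have : ((j + 1 : ℕ) : ℝ) ≤ N := by exact_mod_cast hj
          exact mul_le_mul_of_nonneg_right this (by positivity)
        linarith [ht.2]
    rw [h1, intervalIntegral.integral_const_mul,
      integral_eq_sub_of_hasDerivAt (fun t _ => hasDerivAt_Ph n t)
        ((D_continuous n).intervalIntegrable _ _)]
  rw [sum_congr rfl hpiece]
  -- split Ph
  have hsplit : ∀ j ∈ range N, (-1 : ℝ) ^ j * (Ph n (a (j + 1)) - Ph n (a j)) =
      (π / N) ^ 2 / 4 * ((-1 : ℝ) ^ j * (2 * N - 2 * j - 1)) +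
      ∑ i ∈ range n, bf n i / ((i + 1 : ℕ) : ℝ) * ((-1 : ℝ) ^ j *
        (cos ((i + 1 : ℕ) * ((j + 1 : ℕ) * (π / N))) - cos ((i + 1 : ℕ) * (j * (π / N))))) := by
    intro j _
    unfold Ph
    have e1 : (π * a (j + 1) / 2 - a (j + 1) ^ 2 / 4) - (π * a j / 2 - a j ^ 2 / 4) =
        (π / N) ^ 2 / 4 * (2 * N - 2 * j - 1) := by
      simp only [ha]
      push_cast
      field_simp
      ring
    have e2 : ∑ i ∈ range n, bf n i * (cos ((i + 1 : ℕ) * a (j + 1)) / ((i + 1 : ℕ) : ℝ)) -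
        ∑ i ∈ range n, bf n i * (cos ((i + 1 : ℕ) * a j) / ((i + 1 : ℕ) : ℝ)) =
        ∑ i ∈ range n, bf n i / ((i + 1 : ℕ) : ℝ) *
        (cos ((i + 1 : ℕ) * ((j + 1 : ℕ) * (π / N))) - cos ((i + 1 : ℕ) * (j * (π / N)))) := by
      rw [← sum_sub_distrib]
      exact sum_congr rfl fun i _ => by simp only [ha]; ring
    have e3 : ∀ x1 x2 y1 y2 : ℝ, (x1 + y1) - (x2 + y2) = (x1 - x2) + (y1 - y2) := by
      intros; ring
    rw [e3, e1, e2, mul_add, mul_sum]
    congr 1
    · ring
    · exact sum_congr rfl fun i _ => by ring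
  rw [sum_congr rfl hsplit, sum_add_distrib, ← mul_sum, alt_odd, sum_comm]
  have hzero : ∑ i ∈ range n, ∑ j ∈ range N, bf n i / ((i + 1 : ℕ) : ℝ) * ((-1 : ℝ) ^ j *
        (cos ((i + 1 : ℕ) * ((j + 1 : ℕ) * (π / N))) - cos ((i + 1 : ℕ) * (j * (π / N))))) = 0 := by
    apply sum_eq_zero
    intro i hi
    rw [mem_range] at hi
    rw [← mul_sum, alt_cos N (i + 1) (Nat.succ_pos i) (by omega), mul_zero]
  rw [hzero, add_zero]
  have : ((n : ℝ) + 1) = N := by rw [hNdef]; push_cast; ring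
  rw [this]
  field_simp

/-- The sharp estimate for the approximation functional on Lipschitz functions. -/
lemma functional_bound (n : ℕ) (g : ℝ → ℝ) (L : NNReal)
    (hg : LipschitzWith L g) :
    |g 0 / 2 - (1 / π) * ∫ t in (0 : ℝ)..π, g t * (1 / 2 + tau' n t)| ≤ L * π / (4 * (n + 1)) := by
  have hgc : AbsolutelyContinuousOnInterval g 0 π :=
    (hg.lipschitzOnWith).absolutelyContinuousOnInterval
  have hDlip : AbsolutelyContinuousOnInterval (D n) 0 π := by
    obtain ⟨K, hK⟩ : ∃ K : NNReal, ∀ t ∈ Set.uIcc (0 : ℝ) π, ‖-(1 / 2) - tau' n t‖₊ ≤ K := by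
      have hc : ContinuousOn (fun t => ‖-(1 / 2 : ℝ) - tau' n t‖₊) (Set.uIcc (0 : ℝ) π) := by
        have := tau'_continuous n
        fun_prop
      obtain ⟨t0, _, ht0⟩ := isCompact_uIcc.exists_isMaxOn ⟨0, Set.left_mem_uIcc⟩ hc
      exact ⟨_, fun t ht => ht0 ht⟩
    apply LipschitzOnWith.absolutelyContinuousOnInterval (K := K)
    apply Convex.lipschitzOnWith_of_nnnorm_hasDerivWithin_le (convex_uIcc _ _)
      (fun t _ => (hasDerivAt_D n t).hasDerivWithinAt) hK
  have hparts := hgc.integral_mul_deriv_eq_deriv_mul hDlip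
  have hd : ∀ t, deriv (D n) t = -(1 / 2) - tau' n t := fun t => (hasDerivAt_D n t).deriv
  have hD0 : D n 0 = π / 2 := by
    unfold D tau
    simp
  have hDpi : D n π = 0 := by
    unfold D tau
    simp only [sub_self, zero_div, zero_sub, neg_eq_zero]
    apply sum_eq_zero
    intro i _
    rw [sin_nat_mul_pi, mul_zero]
  rw [hD0, hDpi, mul_zero, zero_sub] at hparts
  have hleft : ∫ t in (0 : ℝ)..π, g t * deriv (D n) t =
      -∫ t in (0 : ℝ)..π, g t * (1 / 2 + tau' n t) := by
    rw [← intervalIntegral.integral_neg]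
    apply intervalIntegral.integral_congr
    intro t _
    simp only [hd]
    ring
  rw [hleft] at hparts
  have hval : g 0 / 2 - (1 / π) * ∫ t in (0 : ℝ)..π, g t * (1 / 2 + tau' n t) =
      -(1 / π) * ∫ t in (0 : ℝ)..π, deriv g t * D n t := by
    have hpi := pi_ne_zero
    have : ∫ t in (0 : ℝ)..π, g t * (1 / 2 + tau' n t) =
        g 0 * (π / 2) + ∫ t in (0 : ℝ)..π, deriv g t * D n t := by linarith
    rw [this]
    field_simp
    ring
  rw [hval, abs_mul, abs_neg, abs_of_pos (by positivity : (0 : ℝ) < 1 / π)]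
  have hbound : |∫ t in (0 : ℝ)..π, deriv g t * D n t| ≤ ∫ t in (0 : ℝ)..π, L * |D n t| := by
    rw [← Real.norm_eq_abs]
    apply intervalIntegral.norm_integral_le_of_norm_le pi_pos.le
    · filter_upwards with t _
      rw [norm_mul]
      exact mul_le_mul_of_nonneg_right (norm_deriv_le_of_lipschitz hg) (norm_nonneg _)
    · exact ((D_continuous n).abs.const_mul _).intervalIntegrable _ _
  rw [intervalIntegral.integral_const_mul, integral_abs_D] at hbound
  have hpi := pi_pos
  calc 1 / π * |∫ t in (0 : ℝ)..π, deriv g t * D n t|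
      ≤ 1 / π * (L * (π ^ 2 / (4 * (n + 1)))) := mul_le_mul_of_nonneg_left hbound (by positivity)
    _ = L * π / (4 * (n + 1)) := by field_simp

end

end Pool.Agent.Helper23.Favard
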